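import Mathlib

/-!
# Powers of the inverse of an expanding integer matrix tend to zero
-/

set_option autoImplicit false
open Matrix Filter Topology
open scoped ENNReal

namespace Pool.Agent.U8.SpecOv

variable {d : ℕ}

lemma det_ne_zero (R : Matrix (Fin d) (Fin d) ℤ)
    (hR : ∀ z : ℂ, (R.map (Int.castRingHom ℂ)).charpoly.IsRoot z → 1 < ‖z‖) :
    (R.map (Int.castRingHom ℂ)).det ≠ 0 := by
  intro h0
  have h1 : (R.map (Int.castRingHom ℂ)).charpoly.coeff 0 = 0 := by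
    rw [Matrix.det_eq_sign_charpoly_coeff] at h0
    rcases mul_eq_zero.1 h0 with h | h
    · exact absurd h (pow_ne_zero _ (by norm_num))
    · exact h
  have h2 := hR 0 (by rw [Polynomial.IsRoot.def, ← Polynomial.coeff_zero_eq_eval_zero, h1])
  simp at h2
  exact absurd h2 (by norm_num)

section
attribute [local instance] Matrix.linftyOpNormedRing Matrix.linftyOpNormedAlgebra

lemma complex_pow_tendsto (hd : 0 < d) (C : Matrix (Fin d) (Fin d) ℂ)
    (hC : ∀ z ∈ spectrum ℂ C, ‖z‖₊ < 1) :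
    Tendsto (fun n : ℕ => ‖C ^ n‖) atTop (𝓝 0) := by
  have : Nonempty (Fin d) := ⟨⟨0, hd⟩⟩
  have : CompleteSpace (Matrix (Fin d) (Fin d) ℂ) := inferInstance
  have h1 : spectralRadius ℂ C < ((1 : NNReal) : ℝ≥0∞) :=
    spectrum.spectralRadius_lt_of_forall_lt C hC
  have h2 := spectrum.pow_nnnorm_pow_one_div_tendsto_nhds_spectralRadius C
  obtain ⟨r, hr1, hr2⟩ := ENNReal.lt_iff_exists_nnreal_btwn.1 h1
  have h3 : ∀ᶠ n : ℕ in atTop, ((‖C ^ n‖₊ : ℝ≥0∞) ^ (1 / n : ℝ)) < (r : ℝ≥0∞) :=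
    h2.eventually (gt_mem_nhds hr1)
  have hr : (r : ℝ) < 1 := by exact_mod_cast hr2
  refine squeeze_zero' (Eventually.of_forall fun n => norm_nonneg _) ?_
    (tendsto_pow_atTop_nhds_zero_of_lt_one r.coe_nonneg hr)
  filter_upwards [h3, eventually_gt_atTop 0] with n hn hn0
  have hn0' : (0 : ℝ) < n := by exact_mod_cast hn0
  have h4 : ((‖C ^ n‖₊ : ℝ≥0∞)) ≤ (r : ℝ≥0∞) ^ (n : ℝ) := by
    calc (‖C ^ n‖₊ : ℝ≥0∞) = (((‖C ^ n‖₊ : ℝ≥0∞) ^ (1 / n : ℝ))) ^ (n : ℝ) := by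
          rw [← ENNReal.rpow_mul, one_div, inv_mul_cancel₀ hn0'.ne', ENNReal.rpow_one]
      _ ≤ (r : ℝ≥0∞) ^ (n : ℝ) := ENNReal.rpow_le_rpow hn.le hn0'.le
  rw [ENNReal.rpow_natCast, ← ENNReal.coe_pow, ENNReal.coe_le_coe] at h4
  exact_mod_cast h4

lemma exists_contr (R : Matrix (Fin d) (Fin d) ℤ)
    (hR : ∀ z : ℂ, (R.map (Int.castRingHom ℂ)).charpoly.IsRoot z → 1 < ‖z‖) :
    ∃ κ : ℕ → ℝ, Tendsto κ atTop (𝓝 0) ∧ ∀ (n : ℕ) (v : Fin d → ℝ),
      ‖((R.map (Int.castRingHom ℝ))⁻¹ ^ n) *ᵥ v‖ ≤ κ n * ‖v‖ := by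
  rcases Nat.eq_zero_or_pos d with hd | hd
  · subst hd
    refine ⟨fun _ => 0, tendsto_const_nhds, fun n v => ?_⟩
    have : ((R.map (Int.castRingHom ℝ))⁻¹ ^ n) *ᵥ v = 0 := Subsingleton.elim _ _
    rw [this]; simp
  have hdet := det_ne_zero R hR
  set AC := R.map (Int.castRingHom ℂ) with hAC
  have hunit : IsUnit AC.det := isUnit_iff_ne_zero.2 hdet
  refine ⟨fun n => ‖(AC⁻¹) ^ n‖, complex_pow_tendsto hd _ ?_, ?_⟩
  · intro z hz
    have hz0 : z ≠ 0 := by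
      rintro rfl
      rw [spectrum.zero_mem_iff] at hz
      exact hz ((Matrix.isUnit_nonsing_inv_iff).2 ((Matrix.isUnit_iff_isUnit_det _).2 hunit))
    let u : (Matrix (Fin d) (Fin d) ℂ)ˣ := AC.nonsingInvUnit hunit
    have hu : (u : Matrix (Fin d) (Fin d) ℂ) = AC := rfl
    have hu' : ((u⁻¹ : (Matrix (Fin d) (Fin d) ℂ)ˣ) : Matrix (Fin d) (Fin d) ℂ) = AC⁻¹ := rfl
    have h1 : (((Units.mk0 z hz0)⁻¹ : ℂˣ) : ℂ) ∈ spectrum ℂ AC := by
      rw [← hu, spectrum.inv_mem_iff, hu', inv_inv]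
      exact hz
    rw [Matrix.mem_spectrum_iff_isRoot_charpoly] at h1
    have h2 := hR _ h1
    rw [Units.val_inv_eq_inv_val, Units.val_mk0, norm_inv] at h2
    have h3 : ‖z‖ < 1 := by
      by_contra hcon
      exact absurd h2 (not_lt.2 (inv_le_one_of_one_le₀ (not_lt.1 hcon)))
    exact_mod_cast h3
  · intro n v
    have hmap : ((R.map (Int.castRingHom ℝ))⁻¹ ^ n).map Complex.ofRealHom = (AC⁻¹) ^ n := by
      have e1 : AC = (R.map (Int.castRingHom ℝ)).map Complex.ofRealHom := by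
        ext i j; simp [hAC]
      have e2 : ((R.map (Int.castRingHom ℝ))⁻¹).map Complex.ofRealHom = AC⁻¹ := by
        symm
        apply Matrix.inv_eq_right_inv
        rw [e1, ← Matrix.map_mul]
        have hdr : IsUnit (R.map (Int.castRingHom ℝ)).det := by
          rw [isUnit_iff_ne_zero]
          intro h0
          apply hdet
          rw [e1, ← RingHom.mapMatrix_apply, ← RingHom.map_det, h0, map_zero]
        rw [Matrix.mul_nonsing_inv _ hdr]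
        ext i j
        by_cases hij : i = j <;> simp [Matrix.one_apply, hij]
      rw [← e2]
      have := map_pow (Complex.ofRealHom.mapMatrix (m := Fin d)) ((R.map (Int.castRingHom ℝ))⁻¹) n
      simpa [RingHom.mapMatrix_apply] using this
    have hvec : ((AC⁻¹) ^ n) *ᵥ (fun i => (v i : ℂ))
        = fun i => (((((R.map (Int.castRingHom ℝ))⁻¹ ^ n) *ᵥ v) i : ℝ) : ℂ) := by
      rw [← hmap]
      ext i
      simp [Matrix.mulVec, dotProduct]
    have hn : ∀ w : Fin d → ℝ, ‖(fun i => (w i : ℂ))‖ = ‖w‖ := by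
      intro w
      simp only [Pi.norm_def]
      congr 2
      ext i
      simp
    calc ‖((R.map (Int.castRingHom ℝ))⁻¹ ^ n) *ᵥ v‖
        = ‖(fun i => (((((R.map (Int.castRingHom ℝ))⁻¹ ^ n) *ᵥ v) i : ℝ) : ℂ))‖ := (hn _).symm
      _ = ‖((AC⁻¹) ^ n) *ᵥ (fun i => (v i : ℂ))‖ := by rw [hvec]
      _ ≤ ‖(AC⁻¹) ^ n‖ * ‖(fun i => (v i : ℂ))‖ := Matrix.linfty_opNorm_mulVec _ _
      _ = _ := by rw [hn]
end

end Pool.Agent.U8.SpecOv
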