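import Pool.Agent.U8.SpecOv.Unif
import Pool.Agent.U8.SpecOv.Lin

/-!
# Spectral self-affine measures have no overlap
-/

set_option autoImplicit false
open MeasureTheory Matrix Filter Topology
open scoped ENNReal

namespace Pool.Agent.U8.SpecOv

variable {d : ℕ}

/-- If one piece of a finite equal-weight affine decomposition of a spectral measure is strictly
exposed in some direction, then all translation parts are different. -/
theorem inj_of_exposed {ι : Type*} (μ : Measure (Fin d → ℝ)) [IsProbabilityMeasure μ]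
    (hspec : Spectral μ) (hK : IsCompact μ.support) (S : Finset ι) (q : ι → Fin d → ℝ)
    (M' : Matrix (Fin d) (Fin d) ℝ)
    (hval0 : ∀ W : Set (Fin d → ℝ), MeasurableSet W →
      μ W = ∑ s ∈ S, (S.card : ℝ≥0∞)⁻¹ * μ ((fun x => M' *ᵥ (x + q s)) ⁻¹' W))
    (ℓ : (Fin d → ℝ) →ₗ[ℝ] ℝ) (s0 : ι) (hs0 : s0 ∈ S)
    (hlt : ∀ s ∈ S, s ≠ s0 → ℓ (M' *ᵥ q s) < ℓ (M' *ᵥ q s0)) : Set.InjOn q S := by
  classical
  set c : ℝ≥0∞ := (S.card : ℝ≥0∞)⁻¹ with hc
  have hc0 : c ≠ 0 := ENNReal.inv_ne_zero.2 (ENNReal.natCast_ne_top _)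
  have hcont : ∀ s, Continuous (fun x : Fin d → ℝ => M' *ᵥ (x + q s)) := fun s => by fun_prop
  have hmeas : ∀ s, Measurable (fun x : Fin d → ℝ => M' *ᵥ (x + q s)) := fun s => (hcont s).measurable
  have hval : ∀ W : Set (Fin d → ℝ), MeasurableSet W →
      μ W = ∑ s ∈ S, c * μ ((fun x => M' *ᵥ (x + q s)) ⁻¹' W) := hval0
  set K := μ.support with hKdef
  have hKc : μ Kᶜ = 0 := Measure.measure_compl_support
  have hKne : K.Nonempty := Measure.nonempty_support (IsProbabilityMeasure.ne_zero μ)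
  -- invariance
  have hinv : ∀ s ∈ S, ∀ x ∈ K, M' *ᵥ (x + q s) ∈ K := by
    intro s hs x hx
    rw [hKdef, Measure.mem_support_iff_forall]
    intro V hV
    obtain ⟨V', hV'V, hV'o, hxV'⟩ := mem_nhds_iff.1 hV
    have h1 : 0 < μ ((fun x => M' *ᵥ (x + q s)) ⁻¹' V') := by
      rw [hKdef, Measure.mem_support_iff_forall] at hx
      exact hx _ ((hV'o.preimage (hcont s)).mem_nhds hxV')
    calc 0 < c * μ ((fun x => M' *ᵥ (x + q s)) ⁻¹' V') :=
          ENNReal.mul_pos hc0 h1.ne'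
      _ ≤ ∑ s ∈ S, c * μ ((fun x => M' *ᵥ (x + q s)) ⁻¹' V') :=
          Finset.single_le_sum (f := fun s => c * μ ((fun x => M' *ᵥ (x + q s)) ⁻¹' V'))
            (fun _ _ => zero_le) hs
      _ = μ V' := (hval V' hV'o.measurableSet).symm
      _ ≤ μ V := measure_mono hV'V
  have hℓc : Continuous ℓ := LinearMap.continuous_of_finiteDimensional ℓ
  obtain ⟨v, hvK, hvmax⟩ := hK.exists_isMaxOn hKne hℓc.continuousOn
  -- the neighbourhood
  set U : Set (Fin d → ℝ) := ⋂ s ∈ S.erase s0, ((fun x => M' *ᵥ (x + q s)) '' K)ᶜ with hU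
  have hUo : IsOpen U := isOpen_biInter_finset fun s _ =>
    (hK.image (hcont s)).isClosed.isOpen_compl
  have hvU : v ∈ U := by
    simp only [hU, Set.mem_iInter]
    intro s hs hmem
    obtain ⟨hs1, hs2⟩ := Finset.mem_erase.1 hs
    obtain ⟨t, htK, rfl⟩ := hmem
    have h1 := hvmax (hinv s0 hs0 t htK)
    simp only [Set.mem_ofPred_eq] at h1
    rw [Matrix.mulVec_add, Matrix.mulVec_add, map_add, map_add] at h1
    have h2 := hlt s hs2 hs1
    linarith
  have hUpos : 0 < μ U := by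
    rw [hKdef, Measure.mem_support_iff_forall] at hvK
    exact hvK U (hUo.mem_nhds hvU)
  have hUm : MeasurableSet U := hUo.measurableSet
  have hzero : ∀ s ∈ S, s ≠ s0 → ∀ W : Set (Fin d → ℝ), W ⊆ U →
      μ ((fun x => M' *ᵥ (x + q s)) ⁻¹' W) = 0 := by
    intro s hs hne W hW
    refine measure_mono_null ?_ hKc
    intro x hx hxK
    have h1 := hW hx
    simp only [hU, Set.mem_iInter] at h1
    exact h1 s (Finset.mem_erase.2 ⟨hne, hs⟩) ⟨x, hxK, rfl⟩
  intro s1 hs1 s2 hs2 heq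
  by_contra hne
  have hs1' : s1 ∈ S := hs1
  have hs2' : s2 ∈ S := hs2
  refine hUpos.ne' (uniformity μ hspec U hUm (M' *ᵥ q s1 - M' *ᵥ q s0) (1 / 2) ?_ ?_)
  · rw [one_div]; exact ENNReal.inv_lt_one.2 (by norm_num)
  · rw [Measure.le_iff]
    intro W hW
    have htr : Measurable (fun x : Fin d → ℝ => x + (M' *ᵥ q s1 - M' *ᵥ q s0)) := by fun_prop
    rw [Measure.map_apply htr hW, Measure.restrict_apply (htr hW), Measure.smul_apply, smul_eq_mul]
    have e1 : μ ((fun x : Fin d → ℝ => x + (M' *ᵥ q s1 - M' *ᵥ q s0)) ⁻¹' W ∩ U)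
        ≤ c * μ ((fun x => M' *ᵥ (x + q s1)) ⁻¹' W) := by
      rw [hval _ ((htr hW).inter hUm), Finset.sum_eq_single_of_mem s0 hs0]
      · gcongr
        intro x hx
        have h1 := hx.1
        simp only [Set.mem_preimage] at h1 ⊢
        convert h1 using 1
        rw [Matrix.mulVec_add, Matrix.mulVec_add]
        abel
      · intro s hs hne
        rw [hzero s hs hne _ Set.inter_subset_right, mul_zero]
    have e2 : 2 * (c * μ ((fun x => M' *ᵥ (x + q s1)) ⁻¹' W)) ≤ μ W := by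
      rw [hval W hW, two_mul]
      have h3 : c * μ ((fun x => M' *ᵥ (x + q s1)) ⁻¹' W)
          + c * μ ((fun x => M' *ᵥ (x + q s2)) ⁻¹' W)
          = ∑ s ∈ ({s1, s2} : Finset ι), c * μ ((fun x => M' *ᵥ (x + q s)) ⁻¹' W) := by
        rw [Finset.sum_pair hne]
      have h4 : (fun x => M' *ᵥ (x + q s2)) = (fun x => M' *ᵥ (x + q s1)) := by rw [heq]
      rw [h4] at h3
      rw [h3]
      refine Finset.sum_le_sum_of_subset ?_
      intro s hs
      rcases Finset.mem_insert.1 hs with h | h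
      · rw [h]; exact hs1'
      · rw [Finset.mem_singleton.1 h]; exact hs2'
    refine e1.trans ?_
    calc c * μ ((fun x => M' *ᵥ (x + q s1)) ⁻¹' W)
        = (1 / 2) * (2 * (c * μ ((fun x => M' *ᵥ (x + q s1)) ⁻¹' W))) := by
          rw [← mul_assoc, one_div, ENNReal.inv_mul_cancel (by norm_num) (by norm_num), one_mul]
      _ ≤ (1 / 2) * μ W := by gcongr

/-- the integer vector as a real vector -/
def cv (p : Fin d → ℤ) : Fin d → ℝ := fun i => (p i : ℝ)

lemma cv_add (p q : Fin d → ℤ) : cv (p + q) = cv p + cv q := by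
  ext i; simp [cv]

lemma cv_inj : Function.Injective (cv (d := d)) := by
  intro p q h
  ext i
  have := congrFun h i
  simpa [cv] using this

lemma cv_mulVec (R : Matrix (Fin d) (Fin d) ℤ) (p : Fin d → ℤ) :
    cv (R *ᵥ p) = (R.map (Int.castRingHom ℝ)) *ᵥ cv p := by
  ext i
  simp [cv, Matrix.mulVec, dotProduct]

/-- digit sets of the iterates -/
def Bn (R : Matrix (Fin d) (Fin d) ℤ) (B : Finset (Fin d → ℤ)) : ℕ → Finset (Fin d → ℤ)
  | 0 => {0}
  | n + 1 => (Bn R B n ×ˢ B).image (fun pb => pb.2 + R *ᵥ pb.1)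

lemma det_real_ne_zero (R : Matrix (Fin d) (Fin d) ℤ)
    (hR : ∀ z : ℂ, (R.map (Int.castRingHom ℂ)).charpoly.IsRoot z → 1 < ‖z‖) :
    IsUnit (R.map (Int.castRingHom ℝ)).det := by
  have h := det_ne_zero R hR
  rw [isUnit_iff_ne_zero]
  intro h0
  apply h
  have h1 : ((R.det : ℤ) : ℝ) = 0 := by
    rw [← h0, ← RingHom.mapMatrix_apply, ← RingHom.map_det]; simp
  have h2 : R.det = 0 := by exact_mod_cast h1
  rw [← RingHom.mapMatrix_apply, ← RingHom.map_det, h2, map_zero]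

section
variable (R : Matrix (Fin d) (Fin d) ℤ) (B : Finset (Fin d → ℤ))
  (hdet : IsUnit (R.map (Int.castRingHom ℝ)).det)
include hdet

lemma comp_eq (n : ℕ) (p b : Fin d → ℤ) (x : Fin d → ℝ) :
    (((R.map (Int.castRingHom ℝ))⁻¹) ^ n) *ᵥ
      (((R.map (Int.castRingHom ℝ))⁻¹) *ᵥ (x + cv b) + cv p)
    = (((R.map (Int.castRingHom ℝ))⁻¹) ^ (n + 1)) *ᵥ (x + cv (b + R *ᵥ p)) := by
  have h1 : (((R.map (Int.castRingHom ℝ))⁻¹) ^ (n + 1)) *ᵥ (x + cv (b + R *ᵥ p))
      = (((R.map (Int.castRingHom ℝ))⁻¹) ^ n) *ᵥ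
        (((R.map (Int.castRingHom ℝ))⁻¹) *ᵥ (x + cv (b + R *ᵥ p))) := by
    rw [Matrix.mulVec_mulVec, ← pow_succ]
  rw [h1, cv_add, cv_mulVec, ← add_assoc, Matrix.mulVec_add _ (x + cv b), Matrix.mulVec_mulVec,
    Matrix.nonsing_inv_mul _ hdet, Matrix.one_mulVec]

lemma pow_inj (n : ℕ) : Function.Injective
    (fun x : Fin d → ℝ => (((R.map (Int.castRingHom ℝ))⁻¹) ^ n) *ᵥ x) := by
  have hu : IsUnit (((R.map (Int.castRingHom ℝ))⁻¹) ^ n) := by
    apply IsUnit.pow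
    exact (Matrix.isUnit_nonsing_inv_iff).2 ((Matrix.isUnit_iff_isUnit_det _).2 hdet)
  exact Matrix.mulVec_injective_of_isUnit hu
end

/-- the hypotheses on the measure, in evaluated form -/
structure Sys (R : Matrix (Fin d) (Fin d) ℤ) (B : Finset (Fin d → ℤ))
    (μ : Measure (Fin d → ℝ)) : Prop where
  hR : ∀ z : ℂ, (R.map (Int.castRingHom ℂ)).charpoly.IsRoot z → 1 < ‖z‖
  hB : B.Nonempty
  hval : ∀ W : Set (Fin d → ℝ), MeasurableSet W →
      μ W = ∑ b ∈ B, (B.card : ℝ≥0∞)⁻¹ *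
        μ ((fun x => ((R.map (Int.castRingHom ℝ))⁻¹) *ᵥ (x + cv b)) ⁻¹' W)

section
variable {R : Matrix (Fin d) (Fin d) ℤ} {B : Finset (Fin d → ℤ)} {μ : Measure (Fin d → ℝ)}

lemma pair_val (hs : Sys R B μ) (n : ℕ)
    (hn : ∀ W : Set (Fin d → ℝ), MeasurableSet W →
      μ W = ∑ p ∈ Bn R B n, ((Bn R B n).card : ℝ≥0∞)⁻¹ *
        μ ((fun x => (((R.map (Int.castRingHom ℝ))⁻¹) ^ n) *ᵥ (x + cv p)) ⁻¹' W)) :
    ∀ W : Set (Fin d → ℝ), MeasurableSet W →
      μ W = ∑ pb ∈ Bn R B n ×ˢ B, ((Bn R B n ×ˢ B).card : ℝ≥0∞)⁻¹ *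
        μ ((fun x => (((R.map (Int.castRingHom ℝ))⁻¹) ^ (n + 1)) *ᵥ
          (x + cv (pb.2 + R *ᵥ pb.1))) ⁻¹' W) := by
  intro W hW
  have hdet := det_real_ne_zero R hs.hR
  rw [hn W hW, Finset.sum_product, Finset.card_product]
  refine Finset.sum_congr rfl fun p _ => ?_
  have hm : MeasurableSet
      ((fun x => (((R.map (Int.castRingHom ℝ))⁻¹) ^ n) *ᵥ (x + cv p)) ⁻¹' W) :=
    (by fun_prop : Measurable
      (fun x => (((R.map (Int.castRingHom ℝ))⁻¹) ^ n) *ᵥ (x + cv p))) hW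
  rw [hs.hval _ hm, Finset.mul_sum]
  refine Finset.sum_congr rfl fun b _ => ?_
  rw [← mul_assoc]
  congr 1
  · rw [Nat.cast_mul, ENNReal.mul_inv (Or.inr (ENNReal.natCast_ne_top _))
      (Or.inl (ENNReal.natCast_ne_top _))]
  · congr 1
    ext x
    simp only [Set.mem_preimage]
    rw [comp_eq R hdet]

lemma exists_functional (F : Finset (Fin d → ℝ)) (hF : ∀ x ∈ F, x ≠ 0) :
    ∃ ℓ : (Fin d → ℝ) →ₗ[ℝ] ℝ, ∀ x ∈ F, ℓ x ≠ 0 := by
  obtain ⟨f, hf⟩ := Module.exists_dual_forall_apply_ne_zero (K := ℝ) (M := Fin d → ℝ)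
    (fun x : F => (x : Fin d → ℝ)) (fun x => hF x x.2)
  exact ⟨f, fun x hx => hf ⟨x, hx⟩⟩

lemma pair_inj [IsProbabilityMeasure μ] (hspec : Spectral μ) (hK : IsCompact μ.support)
    (hs : Sys R B μ) (n : ℕ) (hcard : (Bn R B n).card = B.card ^ n)
    (hn : ∀ W : Set (Fin d → ℝ), MeasurableSet W →
      μ W = ∑ p ∈ Bn R B n, ((Bn R B n).card : ℝ≥0∞)⁻¹ *
        μ ((fun x => (((R.map (Int.castRingHom ℝ))⁻¹) ^ n) *ᵥ (x + cv p)) ⁻¹' W)) :
    Set.InjOn (fun pb : (Fin d → ℤ) × (Fin d → ℤ) => pb.2 + R *ᵥ pb.1)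
      (Bn R B n ×ˢ B : Finset ((Fin d → ℤ) × (Fin d → ℤ))) := by
  classical
  have hdet := det_real_ne_zero R hs.hR
  set M := (R.map (Int.castRingHom ℝ))⁻¹ with hM
  -- the functional
  set F : Finset (Fin d → ℝ) :=
    (((B ×ˢ B).image (fun bb => (M ^ (n + 1)) *ᵥ (cv bb.1 - cv bb.2))) ∪
    ((Bn R B n ×ˢ Bn R B n).image (fun pp => (M ^ n) *ᵥ (cv pp.1 - cv pp.2)))).filter
      (fun x => x ≠ 0) with hF
  obtain ⟨ℓ, hℓ⟩ := exists_functional F (fun x hx => (Finset.mem_filter.1 hx).2)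
  have hB1 : ∀ b ∈ B, ∀ b' ∈ B, ℓ ((M ^ (n + 1)) *ᵥ cv b) = ℓ ((M ^ (n + 1)) *ᵥ cv b') → b = b' := by
    intro b hb b' hb' h
    by_contra hne
    refine hℓ ((M ^ (n + 1)) *ᵥ (cv b - cv b')) ?_ ?_
    · rw [hF, Finset.mem_filter]
      refine ⟨Finset.mem_union_left _ (Finset.mem_image.2 ⟨(b, b'), Finset.mem_product.2 ⟨hb, hb'⟩,
        rfl⟩), ?_⟩
      intro h0
      have h1 := pow_inj R hdet (n + 1) (a₁ := cv b - cv b') (a₂ := 0)
        (by simpa only [Matrix.mulVec_zero] using h0)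
      exact hne (cv_inj (sub_eq_zero.1 h1))
    · rw [Matrix.mulVec_sub, map_sub, h, sub_self]
  have hB2 : ∀ b ∈ Bn R B n, ∀ b' ∈ Bn R B n,
      ℓ ((M ^ n) *ᵥ cv b) = ℓ ((M ^ n) *ᵥ cv b') → b = b' := by
    intro b hb b' hb' h
    by_contra hne
    refine hℓ ((M ^ n) *ᵥ (cv b - cv b')) ?_ ?_
    · rw [hF, Finset.mem_filter]
      refine ⟨Finset.mem_union_right _ (Finset.mem_image.2 ⟨(b, b'),
        Finset.mem_product.2 ⟨hb, hb'⟩, rfl⟩), ?_⟩
      intro h0
      have h1 := pow_inj R hdet n (a₁ := cv b - cv b') (a₂ := 0)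
        (by simpa only [Matrix.mulVec_zero] using h0)
      exact hne (cv_inj (sub_eq_zero.1 h1))
    · rw [Matrix.mulVec_sub, map_sub, h, sub_self]
  have hBn : (Bn R B n).Nonempty := by
    rw [← Finset.card_pos, hcard]
    exact pow_pos (Finset.card_pos.2 hs.hB) n
  obtain ⟨b0, hb0, hb0m⟩ := Finset.exists_max_image B (fun b => ℓ ((M ^ (n + 1)) *ᵥ cv b)) hs.hB
  obtain ⟨p0, hp0, hp0m⟩ := Finset.exists_max_image (Bn R B n) (fun p => ℓ ((M ^ n) *ᵥ cv p)) hBn
  have hsplit : ∀ p b : Fin d → ℤ, ℓ ((M ^ (n + 1)) *ᵥ cv (b + R *ᵥ p))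
      = ℓ ((M ^ (n + 1)) *ᵥ cv b) + ℓ ((M ^ n) *ᵥ cv p) := by
    intro p b
    rw [cv_add, Matrix.mulVec_add, map_add, cv_mulVec, Matrix.mulVec_mulVec, pow_succ,
      Matrix.mul_assoc, hM, Matrix.nonsing_inv_mul _ hdet, Matrix.mul_one]
  have hinj := inj_of_exposed μ hspec hK (Bn R B n ×ˢ B)
    (fun pb => cv (pb.2 + R *ᵥ pb.1)) (M ^ (n + 1)) (pair_val hs n hn) ℓ (p0, b0)
    (Finset.mem_product.2 ⟨hp0, hb0⟩) (by
      rintro ⟨p, b⟩ hpb hne
      obtain ⟨hp, hb⟩ := Finset.mem_product.1 hpb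
      simp only at hp hb ⊢
      rw [hsplit, hsplit]
      have h1 := hb0m b hb
      have h2 := hp0m p hp
      by_cases hbb : b = b0
      · have hpp : p ≠ p0 := by
          rintro rfl; exact hne (by rw [hbb])
        have h3 : ℓ ((M ^ n) *ᵥ cv p) ≠ ℓ ((M ^ n) *ᵥ cv p0) := fun h => hpp (hB2 p hp p0 hp0 h)
        have h4 := lt_of_le_of_ne h2 h3
        linarith
      · have h3 : ℓ ((M ^ (n + 1)) *ᵥ cv b) ≠ ℓ ((M ^ (n + 1)) *ᵥ cv b0) :=
          fun h => hbb (hB1 b hb b0 hb0 h)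
        have h4 := lt_of_le_of_ne h1 h3
        linarith)
  intro x hx y hy hxy
  exact hinj hx hy (by simpa using congrArg cv hxy)

lemma level [IsProbabilityMeasure μ] (hspec : Spectral μ) (hK : IsCompact μ.support)
    (hs : Sys R B μ) (n : ℕ) : (Bn R B n).card = B.card ^ n ∧
    (∀ W : Set (Fin d → ℝ), MeasurableSet W →
      μ W = ∑ p ∈ Bn R B n, ((Bn R B n).card : ℝ≥0∞)⁻¹ *
        μ ((fun x => (((R.map (Int.castRingHom ℝ))⁻¹) ^ n) *ᵥ (x + cv p)) ⁻¹' W)) := by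
  classical
  induction n with
  | zero =>
    refine ⟨by simp [Bn], fun W hW => ?_⟩
    have h0 : cv (0 : Fin d → ℤ) = 0 := by ext i; simp [cv]
    simp [Bn, h0]
  | succ n ih =>
    obtain ⟨hcard, hn⟩ := ih
    have hinj := pair_inj hspec hK hs n hcard hn
    have hcard' : (Bn R B (n + 1)).card = (Bn R B n ×ˢ B).card := by
      rw [Bn, Finset.card_image_of_injOn hinj]
    refine ⟨by rw [hcard', Finset.card_product, hcard, pow_succ], fun W hW => ?_⟩
    rw [pair_val hs n hn W hW, hcard', Bn, Finset.sum_image hinj]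

/-- the attractor carries the measure -/
lemma null_compl [IsProbabilityMeasure μ] (hs : Sys R B μ) (T : Set (Fin d → ℝ))
    (hT : IsCompact T) (hTn : T.Nonempty)
    (hTeq : ∀ b ∈ B, ∀ x ∈ T, ((R.map (Int.castRingHom ℝ))⁻¹) *ᵥ (x + cv b) ∈ T) : μ Tᶜ = 0 := by
  set M := (R.map (Int.castRingHom ℝ))⁻¹ with hM
  obtain ⟨κ, hκ, hκb⟩ := exists_contr R hs.hR
  have hclaim : ∀ (K : Set (Fin d → ℝ)) (n : ℕ) (W : Set (Fin d → ℝ)), MeasurableSet W →
      (∀ x : Fin d → ℝ, (∃ y ∈ T, ∃ k ∈ K, ∃ t ∈ T, x - y = (M ^ n) *ᵥ (k - t)) → x ∈ W) →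
      μ K ≤ μ W := by
    intro K n
    induction n with
    | zero =>
      intro W _ h
      refine measure_mono fun x hx => h x ?_
      obtain ⟨t, ht⟩ := hTn
      exact ⟨t, ht, x, hx, t, ht, by simp⟩
    | succ n ih =>
      intro W hW h
      have h1 : ∀ b ∈ B, μ K ≤ μ ((fun x => M *ᵥ (x + cv b)) ⁻¹' W) := by
        intro b hb
        refine ih _ ((by fun_prop : Measurable (fun x => M *ᵥ (x + cv b))) hW) ?_
        rintro x ⟨y, hy, k, hk, t, ht, hxy⟩
        refine h _ ⟨M *ᵥ (y + cv b), hTeq b hb y hy, k, hk, t, ht, ?_⟩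
        rw [← Matrix.mulVec_sub, add_sub_add_right_eq_sub, hxy, Matrix.mulVec_mulVec, ← pow_succ']
      have hN : (B.card : ℝ≥0∞) ≠ 0 := by
        have := Finset.card_pos.2 hs.hB
        exact_mod_cast this.ne'
      calc μ K = ∑ b ∈ B, (B.card : ℝ≥0∞)⁻¹ * μ K := by
            rw [Finset.sum_const, nsmul_eq_mul, ← mul_assoc,
              ENNReal.mul_inv_cancel hN (ENNReal.natCast_ne_top _), one_mul]
        _ ≤ ∑ b ∈ B, (B.card : ℝ≥0∞)⁻¹ * μ ((fun x => M *ᵥ (x + cv b)) ⁻¹' W) := by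
            exact Finset.sum_le_sum fun b hb => mul_le_mul_right (h1 b hb) _
        _ = μ W := (hs.hval W hW).symm
  obtain ⟨D, hD⟩ := hT.isBounded.subset_closedBall (0 : Fin d → ℝ)
  have hball : ∀ r : ℕ, μ (Metric.closedBall 0 (r : ℝ)) ≤ μ T := by
    intro r
    have hthick : ∀ δ : ℝ, 0 < δ → μ (Metric.closedBall 0 (r : ℝ)) ≤ μ (Metric.cthickening δ T) := by
      intro δ hδ
      have h1 : Tendsto (fun n => |κ n| * ((r : ℝ) + D)) atTop (𝓝 0) := by
        have := (hκ.abs).mul_const ((r : ℝ) + D)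
        simpa using this
      obtain ⟨n, hn⟩ := (h1.eventually (gt_mem_nhds hδ)).exists
      refine hclaim _ n _ Metric.isClosed_cthickening.measurableSet ?_
      rintro x ⟨y, hy, k, hk, t, ht, hxy⟩
      refine Metric.mem_cthickening_of_dist_le x y δ T hy ?_
      rw [dist_eq_norm, hxy]
      have h2 : ‖k - t‖ ≤ (r : ℝ) + D := by
        have hk' : ‖k‖ ≤ r := by simpa using hk
        have ht' : ‖t‖ ≤ D := by simpa using hD ht
        exact (norm_sub_le k t).trans (by linarith)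
      calc ‖(M ^ n) *ᵥ (k - t)‖ ≤ κ n * ‖k - t‖ := hκb n _
        _ ≤ |κ n| * ‖k - t‖ := by gcongr; exact le_abs_self _
        _ ≤ |κ n| * ((r : ℝ) + D) := by gcongr
        _ ≤ δ := hn.le
    have h2 : Tendsto (fun δ => μ (Metric.cthickening δ T)) (𝓝[>] 0) (𝓝 (μ T)) :=
      (tendsto_measure_cthickening_of_isCompact hT).mono_left nhdsWithin_le_nhds
    exact ge_of_tendsto h2 (by
      filter_upwards [self_mem_nhdsWithin] with δ hδ
      exact hthick δ hδ)
  have huniv : μ Set.univ ≤ μ T := by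
    rw [← Metric.iUnion_closedBall_nat (0 : Fin d → ℝ), Monotone.measure_iUnion]
    · exact iSup_le hball
    · intro a b hab
      exact Metric.closedBall_subset_closedBall (by exact_mod_cast hab)
  rw [prob_compl_eq_zero_iff hT.measurableSet]
  refine le_antisymm prob_le_one ?_
  rwa [measure_univ] at huniv

/-- a bounded set contains a bounded number of integer translates of a point -/
lemma count_bound (T : Set (Fin d → ℝ)) (hT : Bornology.IsBounded T) :
    ∃ C : ℕ, ∀ (y : Fin d → ℝ) (S : Finset (Fin d → ℤ)), (∀ p ∈ S, y - cv p ∈ T) → S.card ≤ C := by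
  classical
  obtain ⟨D, hD⟩ := hT.subset_closedBall (0 : Fin d → ℝ)
  refine ⟨(Fintype.piFinset (fun _ : Fin d => Finset.Icc (-(⌈D⌉ + 1)) (⌈D⌉ + 1))).card, ?_⟩
  intro y S hS
  refine Finset.card_le_card_of_injOn (fun p i => p i - ⌊y i⌋) ?_ ?_
  · intro p hp
    rw [Finset.mem_coe, Fintype.mem_piFinset]
    intro i
    have h1 : ‖y - cv p‖ ≤ D := by simpa using hD (hS p hp)
    have h2 : ‖(y - cv p) i‖ ≤ D := (norm_le_pi_norm (y - cv p) i).trans h1
    have h3 : |y i - (p i : ℝ)| ≤ D := by simpa [cv] using h2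
    obtain ⟨h4, h5⟩ := abs_le.1 h3
    have h6 := Int.le_ceil D
    have h7 := Int.floor_le (y i)
    have h8 := Int.lt_floor_add_one (y i)
    rw [Finset.mem_Icc]
    constructor
    · have : (-(⌈D⌉ + 1 : ℤ) : ℝ) ≤ ((p i - ⌊y i⌋ : ℤ) : ℝ) := by push_cast; linarith
      exact_mod_cast this
    · have : ((p i - ⌊y i⌋ : ℤ) : ℝ) ≤ ((⌈D⌉ + 1 : ℤ) : ℝ) := by push_cast; linarith
      exact_mod_cast this
  · intro p _ p' _ h
    ext i
    have := congrFun h i
    simpa using this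

lemma union_add_inter_le {α ι : Type*} [DecidableEq ι] [MeasurableSpace α] (μ : Measure α)
    (B : Finset ι) (S : ι → Set α) (hS : ∀ b, MeasurableSet (S b)) (b1 b2 : ι) (h1 : b1 ∈ B)
    (h2 : b2 ∈ B) (hne : b1 ≠ b2) :
    μ (⋃ b ∈ B, S b) + μ (S b1 ∩ S b2) ≤ ∑ b ∈ B, μ (S b) := by
  have hb2 : b2 ∈ B.erase b1 := Finset.mem_erase.2 ⟨hne.symm, h2⟩
  have e1 : ∑ b ∈ B, μ (S b) = μ (S b1) + (μ (S b2) + ∑ b ∈ (B.erase b1).erase b2, μ (S b)) := by
    rw [Finset.add_sum_erase _ (fun b => μ (S b)) hb2, Finset.add_sum_erase _ (fun b => μ (S b)) h1]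
  have e2 : (⋃ b ∈ B, S b) ⊆ (S b1 ∪ S b2) ∪ ⋃ b ∈ (B.erase b1).erase b2, S b := by
    intro x hx
    simp only [Set.mem_iUnion] at hx
    obtain ⟨b, hb, hx⟩ := hx
    by_cases hb1 : b = b1
    · left; left; rw [← hb1]; exact hx
    · by_cases hb2' : b = b2
      · left; right; rw [← hb2']; exact hx
      · right
        simp only [Set.mem_iUnion]
        exact ⟨b, Finset.mem_erase.2 ⟨hb2', Finset.mem_erase.2 ⟨hb1, hb⟩⟩, hx⟩
  have e3 : μ (⋃ b ∈ B, S b) ≤ μ (S b1 ∪ S b2) + ∑ b ∈ (B.erase b1).erase b2, μ (S b) := by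
    refine (measure_mono e2).trans ((measure_union_le _ _).trans ?_)
    gcongr
    exact measure_biUnion_finset_le _ _
  calc μ (⋃ b ∈ B, S b) + μ (S b1 ∩ S b2)
      ≤ (μ (S b1 ∪ S b2) + ∑ b ∈ (B.erase b1).erase b2, μ (S b)) + μ (S b1 ∩ S b2) := by gcongr
    _ = (μ (S b1 ∪ S b2) + μ (S b1 ∩ S b2)) + ∑ b ∈ (B.erase b1).erase b2, μ (S b) := by
        rw [add_right_comm]
    _ = ∑ b ∈ B, μ (S b) := by
        rw [measure_union_add_inter _ (hS b2), e1, add_assoc]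

theorem no_overlap [IsProbabilityMeasure μ] (hspec : Spectral μ) (hs : Sys R B μ)
    (T : Set (Fin d → ℝ)) (hT : IsCompact T) (hTn : T.Nonempty)
    (hTeq : T = ⋃ b ∈ B, (fun x => ((R.map (Int.castRingHom ℝ))⁻¹) *ᵥ (x + cv b)) '' T)
    (b1 b2 : Fin d → ℤ) (h1 : b1 ∈ B) (h2 : b2 ∈ B) (hne : b1 ≠ b2) :
    μ ((fun x => ((R.map (Int.castRingHom ℝ))⁻¹) *ᵥ (x + cv b1)) '' T ∩
      (fun x => ((R.map (Int.castRingHom ℝ))⁻¹) *ᵥ (x + cv b2)) '' T) = 0 := by
  classical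
  have hdet := det_real_ne_zero R hs.hR
  have hTin : ∀ b ∈ B, ∀ x ∈ T, ((R.map (Int.castRingHom ℝ))⁻¹) *ᵥ (x + cv b) ∈ T := by
    intro b hb x hx
    rw [hTeq]
    exact Set.mem_biUnion hb ⟨x, hx, rfl⟩
  have hnull := null_compl hs T hT hTn hTin
  have hKT : μ.support ⊆ T := Measure.support_subset_of_isClosed hT.isClosed
    (by rw [mem_ae_iff]; exact hnull)
  have hK : IsCompact μ.support := hT.of_isClosed_subset Measure.isClosed_support hKT
  have hlev := level hspec hK hs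
  set M := (R.map (Int.castRingHom ℝ))⁻¹ with hM
  set φ : (Fin d → ℤ) → (Fin d → ℝ) → (Fin d → ℝ) := fun b x => M *ᵥ (x + cv b) with hφ
  set ψ : ℕ → (Fin d → ℤ) → (Fin d → ℝ) → (Fin d → ℝ) := fun n p x => (M ^ n) *ᵥ (x + cv p) with hψ
  have hφc : ∀ b, Continuous (φ b) := fun b => by rw [hφ]; fun_prop
  have hψc : ∀ n p, Continuous (ψ n p) := fun n p => by rw [hψ]; fun_prop
  have hψinj : ∀ n p, Function.Injective (ψ n p) := by
    intro n p x y hxy
    have := pow_inj R hdet n hxy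
    exact add_right_cancel this
  have hcomp : ∀ n p b x, ψ n p (φ b x) = ψ (n + 1) (b + R *ᵥ p) x := fun n p b x =>
    comp_eq R hdet n p b x
  set Y := φ b1 '' T ∩ φ b2 '' T with hY
  have hYc : IsCompact Y := (hT.image (hφc b1)).inter (hT.image (hφc b2))
  obtain ⟨C, hC⟩ := count_bound T hT.isBounded
  have hab : ∀ n, ∑ p ∈ Bn R B n, μ (ψ n p '' T) ≤ (C : ℝ≥0∞) := by
    intro n
    have e1 : ∀ p, μ (ψ n p '' T) = ∫⁻ x, (ψ n p '' T).indicator (fun _ => 1) x ∂μ := by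
      intro p
      rw [lintegral_indicator_const (hT.image (hψc n p)).measurableSet, one_mul]
    simp only [e1]
    rw [← lintegral_finsetSum]
    · calc ∫⁻ x, ∑ p ∈ Bn R B n, (ψ n p '' T).indicator (fun _ => 1) x ∂μ
          ≤ ∫⁻ _, (C : ℝ≥0∞) ∂μ := by
            refine lintegral_mono fun x => ?_
            have e2 : ∑ p ∈ Bn R B n, (ψ n p '' T).indicator (fun _ => (1 : ℝ≥0∞)) x
                = (((Bn R B n).filter (fun p => x ∈ ψ n p '' T)).card : ℝ≥0∞) := by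
              rw [Finset.card_eq_sum_ones, Nat.cast_sum, Finset.sum_filter]
              refine Finset.sum_congr rfl fun p _ => ?_
              by_cases hx : x ∈ ψ n p '' T
              · simp [hx]
              · rw [Set.indicator_of_notMem hx, if_neg hx]
            simp only
            rw [e2]
            have e3 : ((Bn R B n).filter (fun p => x ∈ ψ n p '' T)).card ≤ C := by
              rcases ((Bn R B n).filter (fun p => x ∈ ψ n p '' T)).eq_empty_or_nonempty with h | h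
              · rw [h]; simp
              · obtain ⟨p0, hp0⟩ := h
                obtain ⟨t0, ht0, hx0⟩ := (Finset.mem_filter.1 hp0).2
                refine hC (t0 + cv p0) _ ?_
                intro p hp
                obtain ⟨t, ht, hx⟩ := (Finset.mem_filter.1 hp).2
                have e4 : t + cv p = t0 + cv p0 := pow_inj R hdet n (hx.trans hx0.symm)
                rw [← e4, add_sub_cancel_right]
                exact ht
            exact_mod_cast e3
        _ = C := by simp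
    · intro p _
      exact measurable_const.indicator (hT.image (hψc n p)).measurableSet
  have hstep : ∀ n : ℕ, (n : ℝ≥0∞) * μ Y ≤ ∑ p ∈ Bn R B n, μ (ψ n p '' T) := by
    intro n
    induction n with
    | zero => simp
    | succ n ih =>
      obtain ⟨hcard, hn⟩ := hlev n
      have hinj := pair_inj hspec hK hs n hcard hn
      have hcard0 : ((Bn R B n).card : ℝ≥0∞) ≠ 0 := by
        rw [hcard]
        have := pow_pos (Finset.card_pos.2 hs.hB) n
        exact_mod_cast this.ne'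
      have e1 : ∑ p ∈ Bn R B (n + 1), μ (ψ (n + 1) p '' T)
          = ∑ p ∈ Bn R B n, ∑ b ∈ B, μ (ψ n p '' (φ b '' T)) := by
        rw [Bn, Finset.sum_image hinj, Finset.sum_product]
        refine Finset.sum_congr rfl fun p _ => Finset.sum_congr rfl fun b _ => ?_
        rw [Set.image_image]
        simp only [hcomp]
      have e2 : ∀ p ∈ Bn R B n, μ (ψ n p '' T) + ((Bn R B n).card : ℝ≥0∞)⁻¹ * μ Y
          ≤ ∑ b ∈ B, μ (ψ n p '' (φ b '' T)) := by
        intro p hp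
        have f1 := union_add_inter_le μ B (fun b => ψ n p '' (φ b '' T))
          (fun b => ((hT.image (hφc b)).image (hψc n p)).measurableSet) b1 b2 h1 h2 hne
        have f2 : (⋃ b ∈ B, ψ n p '' (φ b '' T)) = ψ n p '' T := by
          conv_rhs => rw [hTeq]
          rw [Set.image_iUnion₂]
        have f3 : ψ n p '' (φ b1 '' T) ∩ ψ n p '' (φ b2 '' T) = ψ n p '' Y := by
          rw [hY, Set.image_inter (hψinj n p)]
        rw [f2, f3] at f1
        refine le_trans ?_ f1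
        gcongr
        rw [hn _ (hYc.image (hψc n p)).measurableSet]
        refine le_trans ?_ (Finset.single_le_sum (f := fun p' => ((Bn R B n).card : ℝ≥0∞)⁻¹ *
          μ ((fun x => M ^ n *ᵥ (x + cv p')) ⁻¹' (ψ n p '' Y))) (fun _ _ => zero_le) hp)
        gcongr
        exact Set.subset_preimage_image (ψ n p) Y
      rw [e1]
      calc ((n + 1 : ℕ) : ℝ≥0∞) * μ Y = n * μ Y + μ Y := by push_cast; ring
        _ ≤ ∑ p ∈ Bn R B n, μ (ψ n p '' T) + μ Y := by gcongr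
        _ = ∑ p ∈ Bn R B n, (μ (ψ n p '' T) + ((Bn R B n).card : ℝ≥0∞)⁻¹ * μ Y) := by
            rw [Finset.sum_add_distrib, Finset.sum_const, nsmul_eq_mul, ← mul_assoc,
              ENNReal.mul_inv_cancel hcard0 (ENNReal.natCast_ne_top _), one_mul]
        _ ≤ _ := Finset.sum_le_sum e2
  by_contra hne0
  obtain ⟨n, hn⟩ := ENNReal.exists_nat_mul_gt hne0 (ENNReal.natCast_ne_top C)
  exact absurd ((hstep n).trans (hab n)) (not_le.2 hn)
end

end Pool.Agent.U8.SpecOv
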