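import Mathlib

/-!
# Translation uniformity of spectral measures

If `L²(μ)` has an orthonormal basis of exponentials, then a set `U` whose restricted measure, moved
by a vector `a`, is dominated by `c μ` with `c < 1`, is `μ`-null.
-/

set_option autoImplicit false
open MeasureTheory Matrix Filter Topology
open scoped ENNReal

namespace Pool.Agent.U8.SpecOv

variable {d : ℕ}

/-- `L²(μ)` has an orthonormal basis of exponentials (in the form used by the frozen statement). -/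
def Spectral (μ : Measure (Fin d → ℝ)) : Prop :=
  ∃ (Λ : Set (Fin d → ℝ)) (e : Λ → MeasureTheory.Lp ℂ 2 μ),
      (∀ l : Λ, (e l : (Fin d → ℝ) → ℂ) =ᵐ[μ]
        fun x => Complex.exp (2 * Real.pi * Complex.I
          * ((∑ i, (l : Fin d → ℝ) i * x i : ℝ) : ℂ))) ∧
      Orthonormal ℂ e ∧
      (Submodule.span ℂ (Set.range e)).topologicalClosure = ⊤

/-- the exponential with frequency `l` -/
noncomputable def chi (l x : Fin d → ℝ) : ℂ :=
  Complex.exp (2 * Real.pi * Complex.I * ((∑ i, l i * x i : ℝ) : ℂ))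

lemma chi_add (l x a : Fin d → ℝ) : chi l (x + a) = chi l x * chi l a := by
  unfold chi
  rw [← Complex.exp_add]
  congr 1
  rw [← mul_add, ← Complex.ofReal_add, ← Finset.sum_add_distrib]
  congr 2
  refine Finset.sum_congr rfl fun i _ => ?_
  simp only [Pi.add_apply]; ring

lemma chi_zero (l : Fin d → ℝ) : chi l 0 = 1 := by
  simp [chi]

lemma chi_neg_mul (l a : Fin d → ℝ) : chi l (-a) * chi l a = 1 := by
  rw [← chi_add, neg_add_cancel, chi_zero]

lemma norm_chi (l x : Fin d → ℝ) : ‖chi l x‖ = 1 := by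
  unfold chi
  rw [Complex.norm_exp]
  simp

lemma continuous_chi (l : Fin d → ℝ) : Continuous (chi l) := by
  unfold chi
  fun_prop

lemma coe_sum {ι : Type*} (μ : Measure (Fin d → ℝ)) (e : ι → Lp ℂ 2 μ) (f : ι → (Fin d → ℝ) → ℂ)
    (he : ∀ l, (e l : (Fin d → ℝ) → ℂ) =ᵐ[μ] f l) (s : Finset ι) (z : ι → ℂ) :
    ((∑ l ∈ s, z l • e l : Lp ℂ 2 μ) : (Fin d → ℝ) → ℂ) =ᵐ[μ] fun x => ∑ l ∈ s, z l * f l x := by
  classical
  induction s using Finset.induction_on with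
  | empty =>
    simp only [Finset.sum_empty]
    exact Lp.coeFn_zero _ _ _
  | insert a s ha ih =>
    simp only [Finset.sum_insert ha]
    filter_upwards [Lp.coeFn_add (z a • e a) (∑ l ∈ s, z l • e l), Lp.coeFn_smul (z a) (e a),
      he a, ih] with x h1 h2 h3 h4
    rw [h1, Pi.add_apply, h2, Pi.smul_apply, h3, h4, smul_eq_mul]

lemma norm_sum_eq {ι : Type*} (μ : Measure (Fin d → ℝ)) (e : ι → Lp ℂ 2 μ)
    (hon : Orthonormal ℂ e) (s : Finset ι) (z w : ι → ℂ) (hw : ∀ l, ‖w l‖ = ‖z l‖) :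
    ‖∑ l ∈ s, w l • e l‖ = ‖∑ l ∈ s, z l • e l‖ := by
  have key : ∀ y : ι → ℂ, ‖∑ l ∈ s, y l • e l‖ ^ 2 = ∑ l ∈ s, ‖y l‖ ^ 2 := by
    intro y
    have h := hon.inner_sum y y s
    rw [inner_self_eq_norm_sq_to_K] at h
    have h2 : ∀ i, (starRingEnd ℂ) (y i) * y i = ((‖y i‖ ^ 2 : ℝ) : ℂ) := by
      intro i
      rw [mul_comm, Complex.mul_conj, Complex.normSq_eq_norm_sq]
    simp only [h2] at h
    have h3 : ((‖∑ l ∈ s, y l • e l‖ ^ 2 : ℝ) : ℂ) = ((∑ l ∈ s, ‖y l‖ ^ 2 : ℝ) : ℂ) := by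
      simpa using h
    exact Complex.ofReal_injective h3
  have h1 := key w
  have h2 := key z
  simp only [hw] at h1
  rw [← h2] at h1
  exact (sq_eq_sq₀ (norm_nonneg _) (norm_nonneg _)).1 h1

theorem uniformity (μ : Measure (Fin d → ℝ)) [IsFiniteMeasure μ] (h : Spectral μ)
    (U : Set (Fin d → ℝ)) (hU : MeasurableSet U) (a : Fin d → ℝ) (c : ℝ≥0∞) (hc : c < 1)
    (hν : (μ.restrict U).map (fun x => x + a) ≤ c • μ) : μ U = 0 := by
  obtain ⟨Λ, e, he, hon, hd⟩ := h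
  have he' : ∀ l : Λ, (e l : (Fin d → ℝ) → ℂ) =ᵐ[μ] chi (l : Fin d → ℝ) := he
  have hctop : c ≠ ⊤ := ne_top_of_lt hc
  -- the inequality on the span
  have key : ∀ Q ∈ Submodule.span ℂ (Set.range e),
      eLpNorm (Q : (Fin d → ℝ) → ℂ) 2 (μ.restrict U)
        ≤ c ^ (1 / 2 : ℝ) * eLpNorm (Q : (Fin d → ℝ) → ℂ) 2 μ := by
    intro Q hQ
    rw [Finsupp.mem_span_range_iff_exists_finsupp] at hQ
    obtain ⟨q, rfl⟩ := hQ
    rw [Finsupp.sum]
    set s := q.support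
    set w : Λ → ℂ := fun l => q l * chi (l : Fin d → ℝ) (-a) with hw
    have hP := coe_sum μ e (fun l => chi (l : Fin d → ℝ)) he' s w
    have hQ := coe_sum μ e (fun l => chi (l : Fin d → ℝ)) he' s q
    have hnorm : ‖∑ l ∈ s, w l • e l‖ = ‖∑ l ∈ s, q l • e l‖ :=
      norm_sum_eq μ e hon s q w (fun l => by simp [hw, norm_chi])
    have hen : eLpNorm ((∑ l ∈ s, w l • e l : Lp ℂ 2 μ) : (Fin d → ℝ) → ℂ) 2 μ
        = eLpNorm ((∑ l ∈ s, q l • e l : Lp ℂ 2 μ) : (Fin d → ℝ) → ℂ) 2 μ := by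
      rw [← ENNReal.toReal_eq_toReal_iff' (Lp.eLpNorm_ne_top _) (Lp.eLpNorm_ne_top _),
        ← Lp.norm_def, ← Lp.norm_def]
      exact hnorm
    have hPcont : Continuous (fun x => ∑ l ∈ s, w l * chi (l : Fin d → ℝ) x) :=
      continuous_finsetSum _ fun l _ => continuous_const.mul (continuous_chi _)
    calc eLpNorm ((∑ l ∈ s, q l • e l : Lp ℂ 2 μ) : (Fin d → ℝ) → ℂ) 2 (μ.restrict U)
        = eLpNorm (fun x => ∑ l ∈ s, q l * chi (l : Fin d → ℝ) x) 2 (μ.restrict U) :=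
          eLpNorm_congr_ae (ae_restrict_of_ae hQ)
      _ = eLpNorm ((fun x => ∑ l ∈ s, w l * chi (l : Fin d → ℝ) x) ∘ (fun x => x + a)) 2
            (μ.restrict U) := by
          congr 1
          funext x
          simp only [Function.comp_apply]
          refine Finset.sum_congr rfl fun l _ => ?_
          rw [hw, chi_add]
          have := chi_neg_mul (l : Fin d → ℝ) a
          calc q l * chi (l : Fin d → ℝ) x
              = q l * (chi (l : Fin d → ℝ) x) * (chi (l : Fin d → ℝ) (-a) * chi (l : Fin d → ℝ) a) := by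
                rw [this, mul_one]
            _ = _ := by ring
      _ = eLpNorm (fun x => ∑ l ∈ s, w l * chi (l : Fin d → ℝ) x) 2
            ((μ.restrict U).map (fun x => x + a)) := by
          rw [eLpNorm_map_measure hPcont.aestronglyMeasurable (by fun_prop)]
      _ ≤ eLpNorm (fun x => ∑ l ∈ s, w l * chi (l : Fin d → ℝ) x) 2 (c • μ) :=
          eLpNorm_mono_measure _ hν
      _ = c ^ (1 / 2 : ℝ) * eLpNorm (fun x => ∑ l ∈ s, w l * chi (l : Fin d → ℝ) x) 2 μ := by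
          rw [eLpNorm_smul_measure_of_ne_top (by norm_num)]
          simp
      _ = c ^ (1 / 2 : ℝ) * eLpNorm ((∑ l ∈ s, w l • e l : Lp ℂ 2 μ) : (Fin d → ℝ) → ℂ) 2 μ := by
          rw [eLpNorm_congr_ae hP]
      _ = _ := by rw [hen]
  -- density
  have key2 : ∀ Q : Lp ℂ 2 μ, eLpNorm (Q : (Fin d → ℝ) → ℂ) 2 (μ.restrict U)
        ≤ c ^ (1 / 2 : ℝ) * eLpNorm (Q : (Fin d → ℝ) → ℂ) 2 μ := by
    intro Q
    have hc1 : c ^ (1 / 2 : ℝ) ≤ 1 := ENNReal.rpow_le_one hc.le (by norm_num)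
    refine ENNReal.le_of_forall_pos_le_add fun ε hε _ => ?_
    have hQ : Q ∈ closure ((Submodule.span ℂ (Set.range e) : Submodule ℂ (Lp ℂ 2 μ)) :
        Set (Lp ℂ 2 μ)) := by
      rw [← Submodule.topologicalClosure_coe, hd]; trivial
    have hε2 : (0 : ℝ≥0∞) < ((ε / 2 : NNReal) : ℝ≥0∞) := by
      exact_mod_cast half_pos hε
    obtain ⟨Q', hQ', hdist⟩ := EMetric.mem_closure_iff.1 hQ _ hε2
    have h1 : eLpNorm ((Q : (Fin d → ℝ) → ℂ) - (Q' : (Fin d → ℝ) → ℂ)) 2 μ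
        ≤ ((ε / 2 : NNReal) : ℝ≥0∞) := by
      rw [← Lp.edist_def]; exact hdist.le
    have h2 : eLpNorm (Q : (Fin d → ℝ) → ℂ) 2 (μ.restrict U)
        ≤ eLpNorm ((Q : (Fin d → ℝ) → ℂ) - (Q' : (Fin d → ℝ) → ℂ)) 2 (μ.restrict U)
          + eLpNorm (Q' : (Fin d → ℝ) → ℂ) 2 (μ.restrict U) := by
      have := eLpNorm_add_le (p := 2) (μ := μ.restrict U)
        (f := (Q : (Fin d → ℝ) → ℂ) - (Q' : (Fin d → ℝ) → ℂ)) (g := (Q' : (Fin d → ℝ) → ℂ))
        (((Lp.aestronglyMeasurable Q).sub (Lp.aestronglyMeasurable Q')).restrict)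
        ((Lp.aestronglyMeasurable Q').restrict) (by norm_num)
      rwa [sub_add_cancel] at this
    have h3 : eLpNorm (Q' : (Fin d → ℝ) → ℂ) 2 μ
        ≤ eLpNorm ((Q : (Fin d → ℝ) → ℂ) - (Q' : (Fin d → ℝ) → ℂ)) 2 μ
          + eLpNorm (Q : (Fin d → ℝ) → ℂ) 2 μ := by
      have := eLpNorm_sub_le (p := 2) (μ := μ)
        (f := (Q : (Fin d → ℝ) → ℂ)) (g := (Q : (Fin d → ℝ) → ℂ) - (Q' : (Fin d → ℝ) → ℂ))
        (Lp.aestronglyMeasurable Q)
        ((Lp.aestronglyMeasurable Q).sub (Lp.aestronglyMeasurable Q')) (by norm_num)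
      rw [sub_sub_cancel] at this
      rwa [add_comm]
    calc eLpNorm (Q : (Fin d → ℝ) → ℂ) 2 (μ.restrict U)
        ≤ eLpNorm ((Q : (Fin d → ℝ) → ℂ) - (Q' : (Fin d → ℝ) → ℂ)) 2 (μ.restrict U)
          + eLpNorm (Q' : (Fin d → ℝ) → ℂ) 2 (μ.restrict U) := h2
      _ ≤ ((ε / 2 : NNReal) : ℝ≥0∞) + c ^ (1 / 2 : ℝ) *
            (((ε / 2 : NNReal) : ℝ≥0∞) + eLpNorm (Q : (Fin d → ℝ) → ℂ) 2 μ) := by
          gcongr
          · exact (eLpNorm_mono_measure _ Measure.restrict_le_self).trans h1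
          · refine (key Q' hQ').trans ?_
            gcongr
            exact h3.trans (by gcongr)
      _ ≤ ((ε / 2 : NNReal) : ℝ≥0∞) + (1 * ((ε / 2 : NNReal) : ℝ≥0∞)
            + c ^ (1 / 2 : ℝ) * eLpNorm (Q : (Fin d → ℝ) → ℂ) 2 μ) := by
          rw [mul_add]; gcongr
      _ = c ^ (1 / 2 : ℝ) * eLpNorm (Q : (Fin d → ℝ) → ℂ) 2 μ + ε := by
          rw [one_mul, ← add_assoc, ← ENNReal.coe_add, add_halves, add_comm]
  have hQ := key2 (indicatorConstLp 2 hU (measure_ne_top μ U) (1 : ℂ))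
  rw [eLpNorm_congr_ae (ae_restrict_of_ae indicatorConstLp_coeFn),
    eLpNorm_congr_ae indicatorConstLp_coeFn,
    eLpNorm_indicator_eq_eLpNorm_restrict hU, eLpNorm_indicator_eq_eLpNorm_restrict hU,
    Measure.restrict_restrict hU, Set.inter_self] at hQ
  have hfin : eLpNorm (fun _ : Fin d → ℝ => (1 : ℂ)) 2 (μ.restrict U) ≠ ⊤ :=
    (memLp_const (1 : ℂ)).eLpNorm_ne_top
  have hc1 : c ^ (1 / 2 : ℝ) < 1 := ENNReal.rpow_lt_one hc (by norm_num)
  by_contra hne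
  have hX : eLpNorm (fun _ : Fin d → ℝ => (1 : ℂ)) 2 (μ.restrict U) ≠ 0 := by
    intro h0
    rw [eLpNorm_eq_zero_iff (by fun_prop) (by norm_num)] at h0
    have : ∀ᵐ x ∂(μ.restrict U), False := by
      filter_upwards [h0] with x hx
      simp at hx
    rw [ae_iff] at this
    simp at this
    exact hne this
  have : c ^ (1 / 2 : ℝ) * eLpNorm (fun _ : Fin d → ℝ => (1 : ℂ)) 2 (μ.restrict U)
      < 1 * eLpNorm (fun _ : Fin d → ℝ => (1 : ℂ)) 2 (μ.restrict U) :=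
    ENNReal.mul_lt_mul_left hX hfin hc1
  rw [one_mul] at this
  exact absurd hQ (not_le.2 this)

end Pool.Agent.U8.SpecOv
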